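import Mathlib

/-!
Covers of the triangular grid `T_d(n)` by affine hyperplanes, with multiplicity.
-/

set_option autoImplicit false

open Finset

namespace Pool.Agent.H69.TG

/-- An affine hyperplane of `ℝ^d`: the set of all `y` with `∑ nrm j * y j = off`, `nrm ≠ 0`. -/
structure Hyp (d : ℕ) where
  nrm : Fin d → ℝ
  off : ℝ
  ne : nrm ≠ 0

/-- The integer point `x` lies on the hyperplane `H`. -/
def Hyp.On {d : ℕ} (H : Hyp d) (x : Fin d → ℕ) : Prop := ∑ j, H.nrm j * (x j : ℝ) = H.off

open Classical in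
/-- `F` is a `k`-cover of the triangular grid `T_d(n)`, the set of all `x : Fin d → ℕ` with
`x_1 + ... + x_d ≤ n - 1`: every point of the grid lies on at least `k` members of the family. -/
def IsCover {d D : ℕ} (n k : ℕ) (F : Fin D → Hyp d) : Prop :=
  ∀ x : Fin d → ℕ, ∑ j, x j < n → k ≤ (univ.filter (fun i => (F i).On x)).card

/-- The minimum size of a `k`-cover of `T_d(n)`. -/
noncomputable def fmin (n d k : ℕ) : ℕ := sInf {D | ∃ F : Fin D → Hyp d, IsCover n k F}

/-- The coefficients of `H` for the `d + 1` barycentric coordinates `x_0 = n - 1 - ∑ x_j`,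
`x_1, ..., x_d` (they are determined up to adding a constant and scaling). -/
def Hyp.bary {d : ℕ} (H : Hyp d) : Fin (d + 1) → ℝ := Fin.cons 0 H.nrm

/-- `H` is parallel to a facet of the simplex: all barycentric coefficients but one are equal. -/
def Hyp.FacetPar {d : ℕ} (H : Hyp d) : Prop :=
  ∃ (i : Fin (d + 1)) (c : ℝ), H.bary i ≠ c ∧ ∀ j, j ≠ i → H.bary j = c

/-- At most one value occurs more than once among the barycentric coefficients of `H`. -/
def Hyp.OneRep {d : ℕ} (H : Hyp d) : Prop :=
  ∃ c : ℝ, ∀ i j, i ≠ j → H.bary i = H.bary j → H.bary i = c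

/-- `H` is paired for the arrangement `σ` of the `d + 1` coordinates in pairs
`(σ 0, σ 1), (σ 2, σ 3), ...`: the two coefficients of some pair, not the last one, are equal to
`a`, and all coefficients of the later pairs are equal to one `c ≠ a`. -/
def Hyp.Paired {d : ℕ} (σ : Equiv.Perm (Fin (d + 1))) (H : Hyp d) : Prop :=
  ∃ (i j : Fin (d + 1)) (a c : ℝ), Even (i : ℕ) ∧ (j : ℕ) = i + 1 ∧ (j : ℕ) < d ∧ a ≠ c ∧
    H.bary (σ i) = a ∧ H.bary (σ j) = a ∧ ∀ l, j < l → H.bary (σ l) = c

end Pool.Agent.H69.TG
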