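import Pool.Agent.H69.TG.Pairs

/-!
The lower bound for covers by affine hyperplanes.
-/

set_option autoImplicit false

open Finset

namespace Pool.Agent.H69.TG

/-- The barycentric coordinates of a point of the grid. -/
def bc {d : ℕ} (n : ℕ) (x : Fin d → ℕ) : Fin (d + 1) → ℕ := Fin.cons (n - 1 - ∑ j, x j) x

theorem sum_bc {d n : ℕ} (x : Fin d → ℕ) (h : ∑ j, x j < n) : ∑ l, bc n x l = n - 1 := by
  unfold bc
  rw [Fin.sum_univ_succ]
  simp only [Fin.cons_zero, Fin.cons_succ]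
  omega

theorem On_bc {d : ℕ} (n : ℕ) (H : Hyp d) (x : Fin d → ℕ) :
    H.On x ↔ ∑ l, H.bary l * (bc n x l : ℝ) = H.off := by
  unfold Hyp.On Hyp.bary bc
  rw [Fin.sum_univ_succ]
  simp

theorem bary_ne {d : ℕ} (H : Hyp d) : ∃ l, H.bary l ≠ H.bary 0 := by
  by_contra hcon
  push Not at hcon
  apply H.ne
  funext j
  have := hcon j.succ
  simpa [Hyp.bary] using this

open Classical in
theorem lower {b d m n D : ℕ} (hd : d + 1 = 2 * b) (hb : 1 ≤ b) (hn : 1 ≤ n) (F : Fin D → Hyp d)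
    (hF : IsCover n (b * m + 1) F) (σ : Equiv.Perm (Fin (d + 1))) :
    (m + 1) * n ≤ D + m * (univ.filter (fun i => (F i).Paired σ)).card := by
  obtain ⟨c, rfl⟩ : ∃ c, b = c + 1 := ⟨b - 1, by omega⟩
  set α : Fin D → ℕ → ℝ := fun i j => if h : j < d + 1 then (F i).bary (σ ⟨j, h⟩) else 0 with hα
  have hsum : ∀ (g : ℕ → ℝ) (f : Fin (d + 1) → ℝ), (∀ l : Fin (d + 1), g l = f l) →
      ∑ j ∈ range (2 * (c + 1)), g j = ∑ l, f l := by
    intro g f hg
    rw [← hd, Finset.sum_range]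
    exact sum_congr rfl fun l _ => hg l
  have key := main_nat m c (univ : Finset (Fin D)) α (fun i => (F i).off) (n - 1) (by
    intro i _
    by_contra hcon
    push Not at hcon
    obtain ⟨l, hl⟩ := bary_ne (F i)
    have h1 : ∀ l, (F i).bary l = α i 0 := by
      intro l
      have h2 := hcon ((σ.symm l : Fin (d + 1)) : ℕ) (by rw [← hd]; exact (σ.symm l).2)
      rw [← h2]
      simp only [hα]
      rw [dif_pos (σ.symm l).2]
      simp
    exact hl (by rw [h1 l, h1 0])) (by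
    intro x hx
    -- the point
    set X : Fin (d + 1) → ℕ := fun l => x (σ.symm l) with hX
    have hXsum : ∑ l, X l = n - 1 := by
      have h1 : ∑ l, X l = ∑ l : Fin (d + 1), x l := Equiv.sum_comp σ.symm (fun l => x l)
      rw [h1, ← hx, ← hd, Finset.sum_range]
    have h0 : X 0 + ∑ j : Fin d, X j.succ = n - 1 := by rw [← hXsum, Fin.sum_univ_succ]
    have hlt : ∑ j : Fin d, X j.succ < n := by omega
    refine le_trans (hF (fun j => X j.succ) hlt) (card_le_card ?_)
    intro i hi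
    refine mem_filter.2 ⟨mem_univ _, ?_⟩
    have h2 := (On_bc n (F i) _).1 (mem_filter.1 hi).2
    have h3 : bc n (fun j => X j.succ) = X := by
      funext l
      refine Fin.cases ?_ (fun j => ?_) l
      · simp only [bc, Fin.cons_zero]
        omega
      · simp only [bc, Fin.cons_succ]
    rw [h3] at h2
    rw [← h2]
    rw [hsum (fun j => α i j * (x j : ℝ)) (fun l => (F i).bary (σ l) * (X (σ l) : ℝ)) (by
      intro l
      simp only [hα, hX]
      rw [dif_pos l.2]
      simp)]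
    exact Equiv.sum_comp σ (fun l => (F i).bary l * (X l : ℝ)))
  rw [card_univ, Fintype.card_fin, Nat.sub_add_cancel hn] at key
  refine le_trans key (Nat.add_le_add_left (Nat.mul_le_mul_left _ (card_le_card ?_)) _)
  intro i hi
  obtain ⟨r, hr1, hr2, hr3, hr4⟩ := (mem_filter.1 hi).2
  have e : ∀ (j : ℕ) (h : j < d + 1), α i j = (F i).bary (σ ⟨j, h⟩) := by
    intro j h
    simp only [hα]
    rw [dif_pos h]
  refine mem_filter.2 ⟨mem_univ _, ⟨2 * r, by omega⟩, ⟨2 * r + 1, by omega⟩, α i (2 * r),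
    α i (2 * r + 2), ⟨r, by simp; ring⟩, rfl, ?_, hr3, (e _ _).symm, ?_, ?_⟩
  · show 2 * r + 1 < d
    omega
  · rw [hr2]
    exact (e _ _).symm
  · intro l hl
    have h1 : 2 * r + 1 < (l : ℕ) := hl
    have h2 := hr4 l (by omega) (by have := l.2; omega)
    rw [← h2, e l l.2]

theorem Hyp.OneRep.not_paired {b d : ℕ} (hd : d + 1 = 2 * b) {H : Hyp d} (h : H.OneRep)
    (σ : Equiv.Perm (Fin (d + 1))) : ¬ H.Paired σ := by
  rintro ⟨i, j, a, c, hi, hj, hjd, hac, h1, h2, h3⟩
  obtain ⟨v, hv⟩ := h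
  obtain ⟨r, hr⟩ := hi
  have ha : a = v := by
    rw [← h1]
    refine hv (σ i) (σ j) (fun h => ?_) (by rw [h1, h2])
    have := σ.injective h
    rw [this] at hj
    omega
  have hc : c = v := by
    have hl1 : (j : ℕ) + 1 < d + 1 := by omega
    have hl2 : (j : ℕ) + 2 < d + 1 := by omega
    have e1 := h3 ⟨j + 1, hl1⟩ (by rw [Fin.lt_def]; simp)
    have e2 := h3 ⟨j + 2, hl2⟩ (by rw [Fin.lt_def]; simp)
    have e3 : H.bary (σ ⟨j + 1, hl1⟩) = v := by
      refine hv (σ ⟨j + 1, hl1⟩) (σ ⟨j + 2, hl2⟩) (fun h => ?_) (e1.trans e2.symm)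
      have := congrArg Fin.val (σ.injective h)
      simp at this
    exact e1.symm.trans e3
  exact hac (ha.trans hc.symm)

theorem lower_oneRep {b d m n D : ℕ} (hd : d + 1 = 2 * b) (hb : 1 ≤ b) (hn : 1 ≤ n)
    (F : Fin D → Hyp d) (hF : IsCover n (b * m + 1) F) (h1 : ∀ i, (F i).OneRep) :
    (m + 1) * n ≤ D := by
  classical
  have h := lower hd hb hn F hF 1
  have e : univ.filter (fun i => (F i).Paired 1) = ∅ :=
    filter_eq_empty_iff.2 fun i _ => (h1 i).not_paired hd 1
  rw [e] at h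
  simpa using h

theorem Hyp.FacetPar.oneRep {d : ℕ} {H : Hyp d} (h : H.FacetPar) : H.OneRep := by
  obtain ⟨i, c, h1, h2⟩ := h
  refine ⟨c, fun j l hjl he => ?_⟩
  by_cases hj : j = i
  · subst hj
    rw [h2 l (fun h => hjl h.symm)] at he
    exact absurd he h1
  · exact h2 j hj

end Pool.Agent.H69.TG
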