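import Pool.Agent.H69.TG.Defs

/-!
The lower bound `(m+1) n` with the number of paired hyperplanes.
Coordinates are indexed by natural numbers.
-/

set_option autoImplicit false

open Finset

namespace Pool.Agent.H69.TG

/-- Paired coefficients, coordinates `0, ..., 2 * b - 1`. -/
def Pr (b : ℕ) (α : ℕ → ℝ) : Prop :=
  ∃ r : ℕ, 2 * r + 2 < 2 * b ∧ α (2 * r) = α (2 * r + 1) ∧ α (2 * r) ≠ α (2 * r + 2) ∧
    ∀ j, 2 * r + 2 ≤ j → j < 2 * b → α j = α (2 * r + 2)

/-- Constant coefficients from the coordinate `2` on. -/
def Cst (c : ℕ) (α : ℕ → ℝ) : Prop := ∀ j, 2 ≤ j → j < 2 * (c + 1 + 1) → α j = α 2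

theorem sum_two {b : ℕ} (f : ℕ → ℝ) :
    ∑ j ∈ range (2 * (b + 1)), f j = f 0 + f 1 + ∑ j ∈ range (2 * b), f (j + 2) := by
  have e : 2 * (b + 1) = (2 * b + 1) + 1 := by ring
  rw [e, sum_range_succ', sum_range_succ']
  ring

theorem sum_two_nat {b : ℕ} (f : ℕ → ℕ) :
    ∑ j ∈ range (2 * (b + 1)), f j = f 0 + f 1 + ∑ j ∈ range (2 * b), f (j + 2) := by
  have e : 2 * (b + 1) = (2 * b + 1) + 1 := by ring
  rw [e, sum_range_succ', sum_range_succ']
  ring

open Classical in
/-- Some point of a segment is on at most `m` of the lines. -/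
theorem exists_few {ι : Type} (A : Finset ι) (m s : ℕ) (p : ι → ℕ → Prop)
    (h1 : ∀ i ∈ A, ∀ x y, p i x → p i y → x = y) (hu : A.card < (m + 1) * (s + 1)) :
    ∃ x ≤ s, (A.filter (fun i => p i x)).card ≤ m := by
  by_contra hcon
  push Not at hcon
  have h2 : (m + 1) * (s + 1) ≤ ∑ x ∈ range (s + 1), (A.filter (fun i => p i x)).card := by
    have : ∑ x ∈ range (s + 1), (m + 1) ≤ ∑ x ∈ range (s + 1), (A.filter (fun i => p i x)).card :=
      sum_le_sum fun x hx => hcon x (by have := mem_range.1 hx; omega)
    rw [sum_const, card_range, smul_eq_mul] at this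
    linarith
  have h3 : ∑ x ∈ range (s + 1), (A.filter (fun i => p i x)).card ≤ A.card := by
    have e : ∀ x ∈ range (s + 1), (A.filter (fun i => p i x)).card =
        ∑ i ∈ A, if p i x then 1 else 0 := by
      intro x _
      rw [card_filter]
    rw [sum_congr rfl e, sum_comm]
    calc ∑ i ∈ A, ∑ x ∈ range (s + 1), (if p i x then 1 else 0)
        ≤ ∑ i ∈ A, 1 := by
          refine sum_le_sum fun i hi => ?_
          rw [← card_filter]
          refine card_le_one.2 fun x hx y hy => ?_
          exact h1 i hi x y (mem_filter.1 hx).2 (mem_filter.1 hy).2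
      _ = A.card := by simp
  omega

open Classical in
/-- Avoiding the values taken by `Q`. -/
theorem exists_free {ι : Type} (Q : Finset ι) (s0 : ℕ) (p : ι → ℕ → Prop)
    (h1 : ∀ i ∈ Q, ∀ x y, p i x → p i y → x = y) :
    ∃ s, s0 ≤ s ∧ s ≤ s0 + Q.card ∧ ∀ i ∈ Q, ¬ p i s := by
  by_contra hcon
  push Not at hcon
  have h2 : ∀ s ∈ Icc s0 (s0 + Q.card), ∃ i ∈ Q, p i s := fun s hs =>
    hcon s (mem_Icc.1 hs).1 (mem_Icc.1 hs).2
  haveI : Nonempty ι := by
    obtain ⟨i, _, _⟩ := h2 s0 (mem_Icc.2 ⟨le_rfl, by omega⟩)
    exact ⟨i⟩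
  choose! g hg using h2
  have h3 : (Icc s0 (s0 + Q.card)).card ≤ Q.card := by
    refine card_le_card_of_injOn g (fun s hs => (hg s hs).1) ?_
    intro s hs s' hs' he
    have h4 := (hg s hs).2
    have h5 := (hg s' hs').2
    rw [← he] at h5
    exact h1 (g s) (hg s hs).1 s s' h4 h5
  rw [Nat.card_Icc] at h3
  omega

open Classical in
/-- The main inequality, barycentric coordinates indexed by `0, ..., 2 * (c + 1) - 1`. -/
theorem main_nat {ι : Type} (m : ℕ) : ∀ (c : ℕ) (S : Finset ι) (α : ι → ℕ → ℝ) (γ : ι → ℝ) (N : ℕ),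
    (∀ i ∈ S, ∃ j < 2 * (c + 1), α i j ≠ α i 0) →
    (∀ x : ℕ → ℕ, ∑ j ∈ range (2 * (c + 1)), x j = N → (c + 1) * m + 1 ≤
      (S.filter (fun i => ∑ j ∈ range (2 * (c + 1)), α i j * (x j : ℝ) = γ i)).card) →
    (m + 1) * (N + 1) ≤ S.card + m * (S.filter (fun i => Pr (c + 1) (α i))).card := by
  intro c
  induction c with
  | zero =>
    intro S α γ N hne hcov
    by_contra hcon
    push Not at hcon
    have hlt : S.card < (m + 1) * (N + 1) := by
      refine lt_of_le_of_lt ?_ hcon
      omega
    obtain ⟨x, hx, hx2⟩ := exists_few S m N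
      (fun i x => α i 0 * (x : ℝ) + α i 1 * ((N : ℝ) - x) = γ i) (by
        intro i hi x y hx hy
        obtain ⟨j, hj, hj2⟩ := hne i hi
        have hj1 : j = 1 := by
          have : j ≠ 0 := fun h => hj2 (by rw [h])
          omega
        subst hj1
        have h3 : (α i 1 - α i 0) * ((x : ℝ) - y) = 0 := by
          linear_combination hy - hx
        have h4 : ((x : ℝ) - y) = 0 := by
          rcases mul_eq_zero.1 h3 with h | h
          · exact absurd (sub_eq_zero.1 h) hj2
          · exact h
        exact_mod_cast sub_eq_zero.1 h4) hlt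
    have h := hcov (fun j => if j = 0 then x else N - x) (by
      simp [sum_range_succ]
      omega)
    have e : S.filter (fun i => ∑ j ∈ range (2 * (0 + 1)),
        α i j * (((if j = 0 then x else N - x : ℕ)) : ℝ) = γ i) =
        S.filter (fun i => α i 0 * (x : ℝ) + α i 1 * ((N : ℝ) - x) = γ i) := by
      refine filter_congr fun i _ => ?_
      have : ((N - x : ℕ) : ℝ) = (N : ℝ) - x := by
        push_cast [Nat.cast_sub hx]
        ring
      simp [sum_range_succ, this]
    rw [e] at h
    omega
  | succ c ih =>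
    intro S α γ N hne hcov
    set Pp := S.filter (fun i => Cst c (α i)) with hPp
    set Q := Pp.filter (fun i => α i 0 = α i 1) with hQ
    set A := Pp.filter (fun i => ¬ α i 0 = α i 1) with hA
    set S' := S.filter (fun i => ¬ Cst c (α i)) with hS'
    have hcard1 : Pp.card + S'.card = S.card := card_filter_add_card_filter_not _
    have hcard2 : Q.card + A.card = Pp.card := card_filter_add_card_filter_not _
    have hPpS : ∀ i ∈ Pp, i ∈ S ∧ Cst c (α i) :=
      fun i hi => mem_filter.1 hi
    have hQ2 : ∀ i ∈ Q, α i 0 ≠ α i 2 := by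
      intro i hi h
      obtain ⟨hiP, h01⟩ := mem_filter.1 hi
      obtain ⟨hiS, hc⟩ := hPpS i hiP
      obtain ⟨j, hj, hj2⟩ := hne i hiS
      rcases Nat.lt_or_ge j 2 with h2 | h2
      · interval_cases j
        · exact hj2 rfl
        · exact hj2 h01.symm
      · exact hj2 (by rw [hc j h2 hj, h])
    obtain ⟨s, hs1, hs2, hs3⟩ := exists_free Q (A.card / (m + 1))
      (fun i s => α i 0 * (s : ℝ) + α i 2 * ((N : ℝ) - s) = γ i) (by
        intro i hi x y hx hy
        have h3 : (α i 0 - α i 2) * ((x : ℝ) - y) = 0 := by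
          linear_combination hx - hy
        have h4 : ((x : ℝ) - y) = 0 := by
          rcases mul_eq_zero.1 h3 with h | h
          · exact absurd (sub_eq_zero.1 h) (hQ2 i hi)
          · exact h
        exact_mod_cast sub_eq_zero.1 h4)
    have hu : A.card < (m + 1) * (s + 1) := by
      have h1 : A.card < (m + 1) * (A.card / (m + 1) + 1) :=
        Nat.lt_mul_div_succ A.card (Nat.succ_pos m)
      exact lt_of_lt_of_le h1 (Nat.mul_le_mul_left _ (by omega))
    have hms : (m + 1) * s ≤ A.card + (m + 1) * Q.card := by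
      have h1 : (m + 1) * (A.card / (m + 1)) ≤ A.card := Nat.mul_div_le _ _
      calc (m + 1) * s ≤ (m + 1) * (A.card / (m + 1) + Q.card) := Nat.mul_le_mul_left _ hs2
        _ = (m + 1) * (A.card / (m + 1)) + (m + 1) * Q.card := by ring
        _ ≤ A.card + (m + 1) * Q.card := by omega
    -- the paired ones
    have hbad0 : Q.card + (S'.filter (fun i => Pr (c + 1) (fun j => α i (j + 2)))).card ≤
        (S.filter (fun i => Pr (c + 1 + 1) (α i))).card := by
      have hd : Disjoint Q (S'.filter (fun i => Pr (c + 1) (fun j => α i (j + 2)))) := by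
        rw [Finset.disjoint_left]
        intro i hi hi'
        exact (mem_filter.1 (mem_filter.1 hi').1).2 (hPpS i (mem_filter.1 hi).1).2
      rw [← card_union_of_disjoint hd]
      refine card_le_card ?_
      intro i hi
      rcases mem_union.1 hi with hi | hi
      · obtain ⟨hiP, h01⟩ := mem_filter.1 hi
        obtain ⟨hiS, hc⟩ := hPpS i hiP
        refine mem_filter.2 ⟨hiS, 0, by omega, by simpa using h01, by simpa using hQ2 i hi, ?_⟩
        intro j hj hj'
        simpa using hc j (by omega) hj'
      · obtain ⟨hi1, r, hr1, hr2, hr3, hr4⟩ := mem_filter.1 hi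
        refine mem_filter.2 ⟨(mem_filter.1 hi1).1, r + 1, by omega, ?_, ?_, ?_⟩
        · have e1 : 2 * (r + 1) = 2 * r + 2 := by ring
          have e2 : 2 * (r + 1) + 1 = 2 * r + 1 + 2 := by ring
          rw [e2, e1]
          exact hr2
        · have e1 : 2 * (r + 1) = 2 * r + 2 := by ring
          rw [e1]
          exact hr3
        · intro j hj hj'
          obtain ⟨j', rfl⟩ : ∃ j', j = j' + 2 := ⟨j - 2, by omega⟩
          have := hr4 j' (by omega) (by omega)
          simpa [show 2 * (r + 1) + 2 = 2 * r + 2 + 2 by ring] using this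
    rcases Nat.lt_or_ge N s with hN | hN
    · -- the antidiagonal is outside
      have h1 : (m + 1) * (N + 1) ≤ (m + 1) * s := Nat.mul_le_mul_left _ (by omega)
      have h2 : m * Q.card ≤ m * (S.filter (fun i => Pr (c + 1 + 1) (α i))).card :=
        Nat.mul_le_mul_left _ (by omega)
      have h3 : (m + 1) * Q.card = m * Q.card + Q.card := by ring
      omega
    · obtain ⟨x, hx, hx2⟩ := exists_few A m s
        (fun i x => α i 0 * (x : ℝ) + α i 1 * ((s : ℝ) - x) + α i 2 * ((N : ℝ) - s) = γ i) (by
          intro i hi x y hx hy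
          have h3 : (α i 0 - α i 1) * ((x : ℝ) - y) = 0 := by
              linear_combination hx - hy
          have h4 : ((x : ℝ) - y) = 0 := by
            rcases mul_eq_zero.1 h3 with h | h
            · exact absurd (sub_eq_zero.1 h) (mem_filter.1 hi).2
            · exact h
          exact_mod_cast sub_eq_zero.1 h4) hu
      have hih := ih S' (fun i j => α i (j + 2)) (fun i => γ i - α i 0 * x - α i 1 * ((s : ℝ) - x))
        (N - s) (by
          intro i hi
          obtain ⟨hiS, hi2⟩ := mem_filter.1 hi
          unfold Cst at hi2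
          push Not at hi2
          obtain ⟨j, hj1, hj2, hj3⟩ := hi2
          refine ⟨j - 2, by omega, ?_⟩
          have e : j - 2 + 2 = j := by omega
          simpa [e] using hj3) (by
          intro z hz
          have h := hcov (fun j => if j = 0 then x else if j = 1 then s - x else z (j - 2)) (by
            rw [sum_two_nat]
            simp
            rw [hz]
            omega)
          have hsx : ((s - x : ℕ) : ℝ) = (s : ℝ) - x := by
            push_cast [Nat.cast_sub hx]
            ring
          have hzr : (∑ j ∈ range (2 * (c + 1)), (z j : ℝ)) = (N : ℝ) - s := by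
            have h5 : ((∑ j ∈ range (2 * (c + 1)), z j : ℕ) : ℝ) = ((N - s : ℕ) : ℝ) := by rw [hz]
            push_cast [Nat.cast_sub hN] at h5
            exact h5
          have hev : ∀ i, ∑ j ∈ range (2 * (c + 1 + 1)), α i j *
              (((if j = 0 then x else if j = 1 then s - x else z (j - 2) : ℕ)) : ℝ) =
              α i 0 * x + α i 1 * ((s : ℝ) - x) + ∑ j ∈ range (2 * (c + 1)), α i (j + 2) * (z j : ℝ) := by
            intro i
            rw [sum_two]
            simp [hsx]
          have hsplit : (S.filter (fun i => ∑ j ∈ range (2 * (c + 1 + 1)), α i j *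
              (((if j = 0 then x else if j = 1 then s - x else z (j - 2) : ℕ)) : ℝ) = γ i)).card ≤
              (A.filter (fun i => α i 0 * (x : ℝ) + α i 1 * ((s : ℝ) - x) +
                α i 2 * ((N : ℝ) - s) = γ i)).card +
              (S'.filter (fun i => ∑ j ∈ range (2 * (c + 1)), α i (j + 2) * (z j : ℝ) =
                γ i - α i 0 * x - α i 1 * ((s : ℝ) - x))).card := by
            refine le_trans (card_le_card ?_) (card_union_le _ _)
            intro i hi
            obtain ⟨hiS, hi2⟩ := mem_filter.1 hi
            rw [hev i] at hi2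
            by_cases hP : Cst c (α i)
            · have hiP : i ∈ Pp := mem_filter.2 ⟨hiS, hP⟩
              have hconst : ∑ j ∈ range (2 * (c + 1)), α i (j + 2) * (z j : ℝ) =
                  α i 2 * ((N : ℝ) - s) := by
                rw [← hzr, mul_sum]
                refine sum_congr rfl fun j hj => ?_
                rw [hP (j + 2) (by omega) (by have := mem_range.1 hj; omega)]
              rw [hconst] at hi2
              refine mem_union_left _ (mem_filter.2 ⟨mem_filter.2 ⟨hiP, ?_⟩, hi2⟩)
              intro h01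
              refine hs3 i (mem_filter.2 ⟨hiP, h01⟩) ?_
              rw [← hi2, ← h01]
              ring
            · refine mem_union_right _ (mem_filter.2 ⟨mem_filter.2 ⟨hiS, hP⟩, ?_⟩)
              linear_combination hi2
          have e3 : (c + 1 + 1) * m = (c + 1) * m + m := by ring
          omega)
      have e1 : (m + 1) * (N + 1) = (m + 1) * s + (m + 1) * (N - s + 1) := by
        rw [← Nat.mul_add]
        congr 1
        omega
      have h2 : m * (Q.card + (S'.filter (fun i => Pr (c + 1) (fun j => α i (j + 2)))).card) ≤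
          m * (S.filter (fun i => Pr (c + 1 + 1) (α i))).card := Nat.mul_le_mul_left _ hbad0
      have h3 : (m + 1) * Q.card = m * Q.card + Q.card := by ring
      have h4 : m * (Q.card + (S'.filter (fun i => Pr (c + 1) (fun j => α i (j + 2)))).card) =
          m * Q.card + m * (S'.filter (fun i => Pr (c + 1) (fun j => α i (j + 2)))).card := by ring
      omega

end Pool.Agent.H69.TG
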