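import Pool.Agent.H69.TG.Defs

/-!
One step of the recursion on the dimension.
-/

set_option autoImplicit false

open Finset

namespace Pool.Agent.H69.TG

open Classical in
/-- Every `k`-cover of `T_d(n)` by a finite family has size at least `n / μ`. -/
def LB (d k : ℕ) (μ : ℝ) : Prop :=
  ∀ (ι : Type) (S : Finset ι) (α : ι → Fin d → ℝ) (γ : ι → ℝ) (n : ℕ), (∀ i ∈ S, α i ≠ 0) →
    (∀ x : Fin d → ℕ, ∑ j, x j < n →
      k ≤ (S.filter (fun i => ∑ j, α i j * (x j : ℝ) = γ i)).card) → (n : ℝ) ≤ μ * S.card

open Classical in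
theorem slice {d k n : ℕ} {ι : Type} (S : Finset ι) (α : ι → Fin (d + 1) → ℝ) (γ : ι → ℝ)
    (hne : ∀ i ∈ S, α i ≠ 0)
    (hcov : ∀ x : Fin (d + 1) → ℕ, ∑ j, x j < n →
      k ≤ (S.filter (fun i => ∑ j, α i j * (x j : ℝ) = γ i)).card) :
    ∃ (a r : ℕ) (t : ℕ → ℕ), a + r = S.card ∧
      (∀ M, ∑ v ∈ range (M + 1), t v ≤ a) ∧
      ∀ v, v ≤ k → ∀ μ : ℝ, 0 ≤ μ → LB d (k - v) μ → (n : ℝ) ≤ t v + μ * r := by
  set A := S.filter (fun i => ∀ j : Fin d, α i j.succ = 0) with hA
  set S' := S.filter (fun i => ¬ ∀ j : Fin d, α i j.succ = 0) with hS'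
  have hcard : A.card + S'.card = S.card := card_filter_add_card_filter_not _
  set a : ℕ → ℕ := fun c => (A.filter (fun i => α i 0 * (c : ℝ) = γ i)).card with ha
  -- every member of `A` is at one level
  have hone : ∀ i ∈ A, ∀ c c' : ℕ, α i 0 * (c : ℝ) = γ i → α i 0 * (c' : ℝ) = γ i → c = c' := by
    intro i hi c c' h1 h2
    have h0 : α i 0 ≠ 0 := by
      intro h
      apply hne i (mem_filter.1 hi).1
      funext j
      refine Fin.cases ?_ (fun j => ?_) j
      · exact h
      · exact (mem_filter.1 hi).2 j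
    have h3 : α i 0 * ((c : ℝ) - c') = 0 := by linear_combination h1 - h2
    rcases mul_eq_zero.1 h3 with h | h
    · exact absurd h h0
    · exact_mod_cast sub_eq_zero.1 h
  have hsum : ∀ K, ∑ c ∈ range K, a c ≤ A.card := by
    intro K
    have e : ∀ c ∈ range K, a c = ∑ i ∈ A, if α i 0 * (c : ℝ) = γ i then 1 else 0 := by
      intro c _
      simp only [ha]
      rw [card_filter]
    rw [sum_congr rfl e, sum_comm]
    calc ∑ i ∈ A, ∑ c ∈ range K, (if α i 0 * (c : ℝ) = γ i then 1 else 0)
        ≤ ∑ i ∈ A, 1 := by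
          refine sum_le_sum fun i hi => ?_
          rw [← card_filter]
          refine card_le_one.2 fun x hx y hy => ?_
          exact hone i hi x y (mem_filter.1 hx).2 (mem_filter.1 hy).2
      _ = A.card := by simp
  have hex : ∀ v, ∃ c, a c ≤ v := by
    intro v
    by_contra hcon
    push Not at hcon
    have h1 : ∑ c ∈ range (A.card + 1), 1 ≤ ∑ c ∈ range (A.card + 1), a c :=
      sum_le_sum fun c _ => by have := hcon c; omega
    have h2 := hsum (A.card + 1)
    simp at h1
    omega
  set t : ℕ → ℕ := fun v => Nat.find (hex v) with ht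
  have ht1 : ∀ v, a (t v) ≤ v := fun v => Nat.find_spec (hex v)
  have ht2 : ∀ v c, c < t v → v < a c := fun v c hc => not_le.1 (Nat.find_min (hex v) hc)
  have ht0 : ∀ v, t v ≤ t 0 := fun v => Nat.find_min' (hex v) ((ht1 0).trans (Nat.zero_le v))
  refine ⟨A.card, S'.card, t, hcard, fun M => ?_, fun v hv μ hμ hLB => ?_⟩
  · calc ∑ v ∈ range (M + 1), t v
        = ∑ v ∈ range (M + 1), ∑ c ∈ range (t 0), (if c < t v then 1 else 0) := by
          refine sum_congr rfl fun v _ => ?_
          rw [← card_filter]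
          have : (range (t 0)).filter (fun c => c < t v) = range (t v) := by
            ext c
            simp only [mem_filter, mem_range]
            have := ht0 v
            omega
          rw [this, card_range]
      _ ≤ ∑ v ∈ range (M + 1), ∑ c ∈ range (t 0), (if v < a c then 1 else 0) := by
          refine sum_le_sum fun v _ => sum_le_sum fun c _ => ?_
          by_cases h : c < t v
          · rw [if_pos h, if_pos (ht2 v c h)]
          · rw [if_neg h]
            exact Nat.zero_le _
      _ = ∑ c ∈ range (t 0), ∑ v ∈ range (M + 1), (if v < a c then 1 else 0) := sum_comm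
      _ ≤ ∑ c ∈ range (t 0), a c := by
          refine sum_le_sum fun c _ => ?_
          rw [← card_filter]
          calc ((range (M + 1)).filter (fun v => v < a c)).card ≤ (range (a c)).card := by
                refine card_le_card fun v hv => ?_
                exact mem_range.2 (mem_filter.1 hv).2
            _ = a c := card_range _
      _ ≤ A.card := hsum _
  · rcases Nat.lt_or_ge (t v) n with htn | htn
    · have h1 := hLB ι S' (fun i j => α i j.succ) (fun i => γ i - α i 0 * (t v : ℝ)) (n - t v) (by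
          intro i hi h
          exact (mem_filter.1 hi).2 fun j => congrFun h j) (by
          intro x hx
          have h2 := hcov (Fin.cons (t v) x) (by
            rw [Fin.sum_univ_succ]
            simp only [Fin.cons_zero, Fin.cons_succ]
            omega)
          have h3 : (S.filter (fun i => ∑ j, α i j * (((Fin.cons (t v) x : Fin (d + 1) → ℕ) j : ℕ) : ℝ)
              = γ i)).card ≤ (A.filter (fun i => α i 0 * (t v : ℝ) = γ i)).card +
              (S'.filter (fun i => ∑ j, α i j.succ * (x j : ℝ) = γ i - α i 0 * (t v : ℝ))).card := by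
            refine le_trans (card_le_card ?_) (card_union_le _ _)
            intro i hi
            obtain ⟨hiS, hi2⟩ := mem_filter.1 hi
            rw [Fin.sum_univ_succ] at hi2
            simp only [Fin.cons_zero, Fin.cons_succ] at hi2
            by_cases hP : ∀ j : Fin d, α i j.succ = 0
            · refine mem_union_left _ (mem_filter.2 ⟨mem_filter.2 ⟨hiS, hP⟩, ?_⟩)
              rw [← hi2]
              simp [hP]
            · refine mem_union_right _ (mem_filter.2 ⟨mem_filter.2 ⟨hiS, hP⟩, ?_⟩)
              linear_combination hi2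
          have h4 := ht1 v
          simp only [ha] at h4
          omega)
      rw [Nat.cast_sub htn.le] at h1
      linarith
    · have h1 : (n : ℝ) ≤ t v := by exact_mod_cast htn
      have h2 : 0 ≤ μ * (S'.card : ℝ) := by positivity
      linarith

theorem LB.mono {d k k' : ℕ} {μ μ' : ℝ} (h : LB d k μ) (hk : k ≤ k') (hμ : μ ≤ μ') :
    LB d k' μ' := by
  intro ι S α γ n hne hcov
  have h1 := h ι S α γ n hne fun x hx => hk.trans (hcov x hx)
  exact h1.trans (mul_le_mul_of_nonneg_right hμ (Nat.cast_nonneg _))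

/-- Dimension one. -/
theorem LB_dim_one (k : ℕ) (hk : 1 ≤ k) : LB 1 k (1 / k) := by
  classical
  intro ι S α γ n hne hcov
  have h1 : k * n ≤ S.card := by
    have h2 : ∑ x ∈ range n, k ≤ ∑ x ∈ range n, (S.filter (fun i => α i 0 * (x : ℝ) = γ i)).card := by
      refine sum_le_sum fun x hx => ?_
      have h3 := hcov (fun _ => x) (by simpa using mem_range.1 hx)
      simpa using h3
    have h4 : ∑ x ∈ range n, (S.filter (fun i => α i 0 * (x : ℝ) = γ i)).card ≤ S.card := by
      have e : ∀ x ∈ range n, (S.filter (fun i => α i 0 * (x : ℝ) = γ i)).card =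
          ∑ i ∈ S, if α i 0 * (x : ℝ) = γ i then 1 else 0 := by
        intro x _
        rw [card_filter]
      rw [sum_congr rfl e, sum_comm]
      calc ∑ i ∈ S, ∑ x ∈ range n, (if α i 0 * (x : ℝ) = γ i then 1 else 0)
          ≤ ∑ i ∈ S, 1 := by
            refine sum_le_sum fun i hi => ?_
            rw [← card_filter]
            refine card_le_one.2 fun x hx y hy => ?_
            have h5 := (mem_filter.1 hx).2
            have h6 := (mem_filter.1 hy).2
            have h0 : α i 0 ≠ 0 := by
              intro h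
              apply hne i hi
              funext j
              have : j = 0 := Subsingleton.elim _ _
              rw [this, h]
              rfl
            have h7 : α i 0 * ((x : ℝ) - y) = 0 := by linear_combination h5 - h6
            rcases mul_eq_zero.1 h7 with h | h
            · exact absurd h h0
            · exact_mod_cast sub_eq_zero.1 h
        _ = S.card := by simp
    have h5 := h2.trans h4
    rw [sum_const, card_range, smul_eq_mul] at h5
    linarith
  have hk0 : (0 : ℝ) < k := by exact_mod_cast hk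
  have h2 : (k : ℝ) * n ≤ S.card := by exact_mod_cast h1
  rw [one_div, inv_mul_eq_div, le_div_iff₀ hk0]
  linarith

/-- Every cover has at least `n` members. -/
theorem LB_one (d : ℕ) (k : ℕ) (hk : 1 ≤ k) : LB (d + 1) k 1 := by
  induction d with
  | zero =>
    refine (LB_dim_one k hk).mono le_rfl ?_
    have hk0 : (1 : ℝ) ≤ k := by exact_mod_cast hk
    rw [div_le_one (by linarith)]
    exact hk0
  | succ d ih =>
    intro ι S α γ n hne hcov
    obtain ⟨a, r, t, h1, h2, h3⟩ := slice S α γ hne hcov
    have h4 := h3 0 (Nat.zero_le _) 1 zero_le_one (by simpa using ih)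
    have h5 := h2 0
    simp at h5
    have h6 : (t 0 : ℝ) ≤ a := by exact_mod_cast h5
    have h7 : (a : ℝ) + r = S.card := by exact_mod_cast h1
    linarith

/-- The recursion, for the weights `(1 - η) / (m + 1)` on `0, ..., m` and `η` more on `0`. -/
theorem LB_step {d k m : ℕ} (hk : m ≤ k) (η Z : ℝ) (hη0 : 0 ≤ η) (hη1 : η ≤ 1)
    (μ : ℕ → ℝ) (hμ : ∀ v, 0 ≤ μ v) (hLB : ∀ v ≤ m, LB d (k - v) (μ v))
    (hZ : (1 - η) / (m + 1) * ∑ v ∈ range (m + 1), μ v + η * μ 0 ≤ Z)
    (hZ1 : (1 - η) / (m + 1) + η ≤ Z) : LB (d + 1) k Z := by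
  intro ι S α γ n hne hcov
  obtain ⟨a, r, t, h1, h2, h3⟩ := slice S α γ hne hcov
  have hm : (0 : ℝ) < (m : ℝ) + 1 := by positivity
  have h4 : ∀ v ∈ range (m + 1), (n : ℝ) ≤ t v + μ v * r := fun v hv =>
    h3 v (by have := mem_range.1 hv; omega) (μ v) (hμ v)
      (hLB v (by have := mem_range.1 hv; omega))
  have h5 := sum_le_sum h4
  rw [sum_const, card_range, nsmul_eq_mul, sum_add_distrib, ← sum_mul] at h5
  have h6 := h4 0 (mem_range.2 (Nat.succ_pos m))
  have h7 : (∑ v ∈ range (m + 1), (t v : ℝ)) ≤ a := by exact_mod_cast h2 m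
  have h8 : (t 0 : ℝ) ≤ a := by
    have := h2 0
    simp at this
    exact_mod_cast this
  have hc : 0 ≤ (1 - η) / ((m : ℝ) + 1) := div_nonneg (by linarith) hm.le
  have h9 : (n : ℝ) ≤ ((1 - η) / (m + 1) + η) * a +
      ((1 - η) / (m + 1) * ∑ v ∈ range (m + 1), μ v + η * μ 0) * r := by
    have e1 : (n : ℝ) = (1 - η) / (m + 1) * (((m + 1 : ℕ) : ℝ) * n) + η * n := by
      push_cast
      field_simp
      ring
    have i1 : (1 - η) / (m + 1) * (((m + 1 : ℕ) : ℝ) * n) ≤ (1 - η) / (m + 1) *
        (∑ v ∈ range (m + 1), (t v : ℝ) + (∑ v ∈ range (m + 1), μ v) * r) :=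
      mul_le_mul_of_nonneg_left h5 hc
    have i2 : η * n ≤ η * (t 0 + μ 0 * r) := mul_le_mul_of_nonneg_left h6 hη0
    have i3 : (1 - η) / (m + 1) * (∑ v ∈ range (m + 1), (t v : ℝ)) ≤ (1 - η) / (m + 1) * a :=
      mul_le_mul_of_nonneg_left h7 hc
    have i4 : η * (t 0 : ℝ) ≤ η * a := mul_le_mul_of_nonneg_left h8 hη0
    calc (n : ℝ) = (1 - η) / (m + 1) * (((m + 1 : ℕ) : ℝ) * n) + η * n := e1
      _ ≤ (1 - η) / (m + 1) * (∑ v ∈ range (m + 1), (t v : ℝ) +
          (∑ v ∈ range (m + 1), μ v) * r) + η * (t 0 + μ 0 * r) := add_le_add i1 i2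
      _ ≤ _ := by nlinarith
  have h10 : (S.card : ℝ) = a + r := by exact_mod_cast h1.symm
  rw [h10]
  have ha0 : (0 : ℝ) ≤ a := Nat.cast_nonneg _
  have hr0 : (0 : ℝ) ≤ r := Nat.cast_nonneg _
  have j1 := mul_le_mul_of_nonneg_right hZ1 ha0
  have j2 := mul_le_mul_of_nonneg_right hZ hr0
  nlinarith

end Pool.Agent.H69.TG
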