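import Pool.Agent.H69.TG.Slice

/-!
The slope of `f(n, 2b-1, bm+1)` for all covers.
-/

set_option autoImplicit false

open Finset

namespace Pool.Agent.H69.TG

/-- The average of `exp (θ v)` over `0 ≤ v ≤ m`. -/
noncomputable def Mav (m : ℕ) (θ : ℝ) : ℝ :=
  1 / ((m : ℝ) + 1) * ∑ v ∈ range (m + 1), Real.exp (θ * v)

theorem Mav_eq (m : ℕ) (hm : 1 ≤ m) (t : ℝ) :
    Mav m (2 * t / m) = Real.exp t *
      (1 / ((m : ℝ) + 1) * ∑ v ∈ range (m + 1), Real.cosh (t * (2 * v / m - 1))) := by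
  have hm0 : (m : ℝ) ≠ 0 := by
    have : 0 < m := hm
    exact_mod_cast this.ne'
  have h1 : ∑ v ∈ range (m + 1), Real.exp (2 * t / m * v) =
      Real.exp t * ∑ v ∈ range (m + 1), Real.exp (t * (2 * v / m - 1)) := by
    rw [mul_sum]
    refine sum_congr rfl fun v _ => ?_
    rw [← Real.exp_add]
    congr 1
    ring
  have h2 : ∑ v ∈ range (m + 1), Real.exp (t * (2 * v / m - 1)) =
      ∑ v ∈ range (m + 1), Real.exp (-(t * (2 * v / m - 1))) := by
    rw [← sum_range_reflect]
    refine sum_congr rfl fun v hv => ?_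
    have hv' : v ≤ m := Nat.lt_succ_iff.1 (mem_range.1 hv)
    congr 1
    have : ((m + 1 - 1 - v : ℕ) : ℝ) = (m : ℝ) - v := by
      rw [Nat.add_sub_cancel, Nat.cast_sub hv']
    rw [this]
    field_simp
    ring
  have h3 : ∑ v ∈ range (m + 1), Real.cosh (t * (2 * v / m - 1)) =
      ∑ v ∈ range (m + 1), Real.exp (t * (2 * v / m - 1)) := by
    have h4 : ∑ v ∈ range (m + 1), Real.cosh (t * (2 * v / m - 1)) =
        (∑ v ∈ range (m + 1), Real.exp (t * (2 * v / m - 1)) +
          ∑ v ∈ range (m + 1), Real.exp (-(t * (2 * v / m - 1)))) / 2 := by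
      rw [← sum_add_distrib, sum_div]
      exact sum_congr rfl fun v _ => Real.cosh_eq _
    rw [h4, ← h2]
    ring
  rw [Mav, h1, h3]
  ring

theorem Mav_ge (m : ℕ) (hm : 1 ≤ m) (t : ℝ) : Real.exp t ≤ Mav m (2 * t / m) := by
  have hm1 : (0 : ℝ) < (m : ℝ) + 1 := by positivity
  rw [Mav_eq m hm]
  have h1 : ((m : ℝ) + 1) ≤ ∑ v ∈ range (m + 1), Real.cosh (t * (2 * v / m - 1)) := by
    calc ((m : ℝ) + 1) = ∑ v ∈ range (m + 1), (1 : ℝ) := by simp
      _ ≤ _ := sum_le_sum fun v _ => Real.one_le_cosh _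
  have h2 : (1 : ℝ) ≤ 1 / ((m : ℝ) + 1) *
      ∑ v ∈ range (m + 1), Real.cosh (t * (2 * v / m - 1)) := by
    rw [one_div, inv_mul_eq_div, le_div_iff₀ hm1]
    linarith
  calc Real.exp t = Real.exp t * 1 := (mul_one _).symm
    _ ≤ _ := mul_le_mul_of_nonneg_left h2 (Real.exp_pos _).le

theorem Mav_le (m : ℕ) (hm : 1 ≤ m) (t : ℝ) :
    Mav m (2 * t / m) ≤ Real.exp (t + t ^ 2 / 2) := by
  have hm1 : (0 : ℝ) < (m : ℝ) + 1 := by positivity
  have hm0 : (0 : ℝ) < m := by exact_mod_cast hm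
  rw [Mav_eq m hm, Real.exp_add]
  refine mul_le_mul_of_nonneg_left ?_ (Real.exp_pos _).le
  have h1 : ∑ v ∈ range (m + 1), Real.cosh (t * (2 * v / m - 1)) ≤
      ((m : ℝ) + 1) * Real.exp (t ^ 2 / 2) := by
    calc _ ≤ ∑ v ∈ range (m + 1), Real.exp (t ^ 2 / 2) := by
          refine sum_le_sum fun v hv => (Real.cosh_le_exp_half_sq _).trans ?_
          refine Real.exp_le_exp.2 ?_
          have hv' : (v : ℝ) ≤ m := by
            have := Nat.lt_succ_iff.1 (mem_range.1 hv)
            exact_mod_cast this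
          have a1 : 2 * (v : ℝ) / m - 1 ≤ 1 := by
            have : 2 * (v : ℝ) / m ≤ 2 := by
              rw [div_le_iff₀ hm0]
              linarith
            linarith
          have a2 : -1 ≤ 2 * (v : ℝ) / m - 1 := by
            have : 0 ≤ 2 * (v : ℝ) / m := by positivity
            linarith
          have a3 : (2 * (v : ℝ) / m - 1) ^ 2 ≤ 1 := by nlinarith
          have a4 : (t * (2 * (v : ℝ) / m - 1)) ^ 2 = t ^ 2 * (2 * (v : ℝ) / m - 1) ^ 2 := by
            ring
          rw [a4]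
          have a5 : t ^ 2 * (2 * (v : ℝ) / m - 1) ^ 2 ≤ t ^ 2 * 1 :=
            mul_le_mul_of_nonneg_left a3 (sq_nonneg _)
          linarith
      _ = _ := by
          rw [sum_const, card_range, nsmul_eq_mul]
          push_cast
          ring
  rw [one_div, inv_mul_eq_div, div_le_iff₀ hm1]
  linarith

/-- The growth factor of one step. -/
noncomputable def Wst (m : ℕ) (η θ : ℝ) : ℝ := (1 - η) * Mav m θ + η

theorem Mav_one_le (m : ℕ) {θ : ℝ} (hθ : 0 ≤ θ) : 1 ≤ Mav m θ := by
  have hm1 : (0 : ℝ) < (m : ℝ) + 1 := by positivity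
  rw [Mav, one_div, inv_mul_eq_div, le_div_iff₀ hm1, one_mul]
  calc ((m : ℝ) + 1) = ∑ v ∈ range (m + 1), (1 : ℝ) := by simp
    _ ≤ _ := sum_le_sum fun v _ => Real.one_le_exp (mul_nonneg hθ (Nat.cast_nonneg _))

theorem Wst_one_le (m : ℕ) {η θ : ℝ} (hη1 : η ≤ 1) (hθ : 0 ≤ θ) : 1 ≤ Wst m η θ := by
  have h1 := Mav_one_le m hθ
  unfold Wst
  nlinarith

/-- The bound for all dimensions. -/
theorem LB_all (m : ℕ) (η θ : ℝ) (hη0 : 0 ≤ η) (hη1 : η ≤ 1) (hθ : 0 ≤ θ) (e : ℕ) :
    ∀ k : ℕ, 1 ≤ k → LB (e + 1) k ((1 + m * η) / (m + 1) +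
      Real.exp (-θ * ((k : ℝ) - m)) * Wst m η θ ^ e) := by
  have hm1 : (0 : ℝ) < (m : ℝ) + 1 := by positivity
  have hκ : (0 : ℝ) ≤ (1 + m * η) / (m + 1) := by positivity
  have hW := Wst_one_le m hη1 hθ
  induction e with
  | zero =>
    intro k hk
    refine (LB_dim_one k hk).mono le_rfl ?_
    have hk0 : (1 : ℝ) ≤ k := by exact_mod_cast hk
    have hkp : (0 : ℝ) < k := by linarith
    rw [pow_zero, mul_one]
    rcases Nat.lt_or_ge m k with h | h
    · have h1 : ((m : ℝ) + 1) ≤ k := by exact_mod_cast h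
      have h2 : (1 : ℝ) / k ≤ 1 / (m + 1) := one_div_le_one_div_of_le hm1 h1
      have h3 : (1 : ℝ) / (m + 1) ≤ (1 + m * η) / (m + 1) := by
        refine div_le_div_of_nonneg_right ?_ hm1.le
        have : 0 ≤ (m : ℝ) * η := by positivity
        linarith
      have h4 := (Real.exp_pos (-θ * ((k : ℝ) - m))).le
      linarith
    · have h1 : (k : ℝ) ≤ m := by exact_mod_cast h
      have h2 : (1 : ℝ) ≤ Real.exp (-θ * ((k : ℝ) - m)) := by
        refine Real.one_le_exp ?_
        nlinarith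
      have h3 : (1 : ℝ) / k ≤ 1 := by
        rw [div_le_one hkp]
        exact hk0
      linarith
  | succ e ih =>
    intro k hk
    rcases Nat.lt_or_ge m k with h | h
    · refine LB_step (m := m) h.le η _ hη0 hη1
        (fun v => (1 + m * η) / (m + 1) +
          Real.exp (-θ * ((k : ℝ) - v - m)) * Wst m η θ ^ e) (fun v => ?_) (fun v hv => ?_) ?_ ?_
      · have h4 := (Real.exp_pos (-θ * ((k : ℝ) - v - m))).le
        have h5 : 0 ≤ Wst m η θ ^ e := pow_nonneg (by linarith) _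
        positivity
      · have h1 := ih (k - v) (by omega)
        rw [Nat.cast_sub (by omega)] at h1
        exact h1
      · refine le_of_eq ?_
        have e1 : ∑ v ∈ range (m + 1), ((1 + (m : ℝ) * η) / (m + 1) +
            Real.exp (-θ * ((k : ℝ) - v - m)) * Wst m η θ ^ e) =
            (m + 1) * ((1 + m * η) / (m + 1)) + Real.exp (-θ * ((k : ℝ) - m)) * Wst m η θ ^ e *
              ∑ v ∈ range (m + 1), Real.exp (θ * v) := by
          rw [sum_add_distrib, sum_const, card_range, nsmul_eq_mul, mul_sum]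
          push_cast
          congr 1
          refine sum_congr rfl fun v _ => ?_
          have : Real.exp (-θ * ((k : ℝ) - v - m)) =
              Real.exp (-θ * ((k : ℝ) - m)) * Real.exp (θ * v) := by
            rw [← Real.exp_add]
            congr 1
            ring
          rw [this]
          ring
        rw [e1]
        simp only [Nat.cast_zero, sub_zero]
        have e2 : ∑ v ∈ range (m + 1), Real.exp (θ * v) = (m + 1) * Mav m θ := by
          rw [Mav]
          field_simp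
        rw [e2, pow_succ]
        have e3 : Wst m η θ = (1 - η) * Mav m θ + η := rfl
        generalize Real.exp (-θ * ((k : ℝ) - m)) = E
        generalize Mav m θ = Q at e3 ⊢
        generalize Wst m η θ ^ e = P
        rw [e3]
        field_simp
        ring
      · have h4 := (Real.exp_pos (-θ * ((k : ℝ) - m))).le
        have h5 : 0 ≤ Wst m η θ ^ (e + 1) := pow_nonneg (by linarith) _
        have h6 : (1 - η) / ((m : ℝ) + 1) + η = (1 + m * η) / (m + 1) := by
          field_simp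
          ring
        rw [h6]
        have := mul_nonneg h4 h5
        linarith
    · refine (LB_one (e + 1) k hk).mono le_rfl ?_
      have h1 : (k : ℝ) ≤ m := by exact_mod_cast h
      have h2 : (1 : ℝ) ≤ Real.exp (-θ * ((k : ℝ) - m)) := by
        refine Real.one_le_exp ?_
        nlinarith
      have h3 : (1 : ℝ) ≤ Wst m η θ ^ (e + 1) := one_le_pow₀ hW
      nlinarith

theorem one_sub_exp_neg_ge {t : ℝ} (ht : 0 ≤ t) : t - t ^ 2 / 2 ≤ 1 - Real.exp (-t) := by
  have h := Real.quadratic_le_exp_of_nonneg ht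
  have h1 : 0 < Real.exp t := Real.exp_pos t
  have h2 : Real.exp (-t) ≤ 1 - t + t ^ 2 / 2 := by
    rw [Real.exp_neg]
    rw [inv_le_comm₀ h1 (by nlinarith [sq_nonneg (t - 1)])]
    refine le_trans ?_ h
    rw [inv_le_iff_one_le_mul₀ (by nlinarith [sq_nonneg (t - 1)])]
    nlinarith [sq_nonneg t, sq_nonneg (t ^ 2), mul_nonneg ht (sq_nonneg t)]
  linarith

theorem Wst_le (m : ℕ) (hm : 1 ≤ m) (η : ℝ) (hη0 : 0 ≤ η) (t : ℝ)
    (ht : t = η / (1 + η)) :
    Real.exp (-t) * Wst m η (2 * t / m) ≤ Real.exp (-(η ^ 2 / (2 * (1 + η)))) := by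
  have h1η : (0 : ℝ) < 1 + η := by linarith
  have ht0 : 0 ≤ t := by rw [ht]; positivity
  set Q := Mav m (2 * t / m) with hQ
  have hQ1 : Real.exp t ≤ Q := Mav_ge m hm t
  have hQ2 : Q ≤ Real.exp (t + t ^ 2 / 2) := Mav_le m hm t
  have hQ0 : 0 < Q := (Real.exp_pos t).trans_le hQ1
  have h1 : Wst m η (2 * t / m) ≤ Q * Real.exp (-(η * (1 - Real.exp (-t)))) := by
    have e1 : 1 ≤ Q * Real.exp (-t) := by
      have : Real.exp t * Real.exp (-t) = 1 := by
        rw [← Real.exp_add]
        simp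
      rw [← this]
      exact mul_le_mul_of_nonneg_right hQ1 (Real.exp_pos _).le
    have e2 : 1 - η * (1 - Real.exp (-t)) ≤ Real.exp (-(η * (1 - Real.exp (-t)))) := by
      have := Real.add_one_le_exp (-(η * (1 - Real.exp (-t))))
      linarith
    have e3 : Wst m η (2 * t / m) ≤ Q * (1 - η * (1 - Real.exp (-t))) := by
      rw [Wst, ← hQ]
      have : η ≤ η * (Q * Real.exp (-t)) := by
        calc η = η * 1 := (mul_one _).symm
          _ ≤ _ := mul_le_mul_of_nonneg_left e1 hη0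
      nlinarith
    exact e3.trans (mul_le_mul_of_nonneg_left e2 hQ0.le)
  have h2 : Q * Real.exp (-(η * (1 - Real.exp (-t)))) ≤
      Real.exp (t + t ^ 2 / 2) * Real.exp (-(η * (t - t ^ 2 / 2))) := by
    refine mul_le_mul hQ2 ?_ (Real.exp_pos _).le (Real.exp_pos _).le
    refine Real.exp_le_exp.2 ?_
    have := mul_le_mul_of_nonneg_left (one_sub_exp_neg_ge ht0) hη0
    linarith
  calc Real.exp (-t) * Wst m η (2 * t / m)
      ≤ Real.exp (-t) * (Real.exp (t + t ^ 2 / 2) * Real.exp (-(η * (t - t ^ 2 / 2)))) :=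
        mul_le_mul_of_nonneg_left (h1.trans h2) (Real.exp_pos _).le
    _ = Real.exp (-(η ^ 2 / (2 * (1 + η)))) := by
        rw [← Real.exp_add, ← Real.exp_add]
        congr 1
        rw [ht]
        field_simp
        ring

/-- The lower bound for the slope in dimension `2b-1`. -/
theorem LB_final (b m : ℕ) (hb : 1 ≤ b) (η : ℝ) (hη0 : 0 ≤ η) (hη1 : η ≤ 1) :
    LB (2 * b - 1) (b * m + 1) ((1 + m * η) / (m + 1) +
      Real.exp (-((b - 1) * η ^ 2 / (1 + η)))) := by
  have h1η : (0 : ℝ) < 1 + η := by linarith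
  have hd : 2 * b - 1 = 2 * (b - 1) + 1 := by omega
  rcases Nat.eq_zero_or_pos m with hm | hm
  · subst hm
    rw [hd]
    refine (LB_one (2 * (b - 1)) _ (by omega)).mono le_rfl ?_
    have := (Real.exp_pos (-((b - 1) * η ^ 2 / (1 + η)))).le
    simp
    exact this
  · set t : ℝ := η / (1 + η) with ht
    have ht0 : 0 ≤ t := by rw [ht]; positivity
    have hm0 : (0 : ℝ) < m := by exact_mod_cast hm
    have hθ : 0 ≤ 2 * t / m := by positivity
    have h1 := LB_all m η (2 * t / m) hη0 hη1 hθ (2 * (b - 1)) (b * m + 1) (by omega)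
    rw [hd]
    refine h1.mono le_rfl ?_
    have hW := Wst_le m hm η hη0 t ht
    have hW0 : 0 ≤ Real.exp (-t) * Wst m η (2 * t / m) :=
      mul_nonneg (Real.exp_pos _).le (by linarith [Wst_one_le m (η := η) hη1 hθ])
    have h2 := pow_le_pow_left₀ hW0 hW (2 * (b - 1))
    have hb1 : ((b - 1 : ℕ) : ℝ) = (b : ℝ) - 1 := by
      rw [Nat.cast_sub hb, Nat.cast_one]
    have e1 : Real.exp (-(η ^ 2 / (2 * (1 + η)))) ^ (2 * (b - 1)) =
        Real.exp (-((b - 1) * η ^ 2 / (1 + η))) := by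
      rw [← Real.exp_nat_mul]
      congr 1
      push_cast
      rw [hb1]
      field_simp
    have e2 : Real.exp (-(2 * t / m) * (((b * m + 1 : ℕ) : ℝ) - m)) * Wst m η (2 * t / m) ^
        (2 * (b - 1)) = Real.exp (-(2 * t / m)) *
        (Real.exp (-t) * Wst m η (2 * t / m)) ^ (2 * (b - 1)) := by
      rw [mul_pow, ← mul_assoc, ← Real.exp_nat_mul, ← Real.exp_add]
      congr 2
      push_cast
      rw [hb1]
      field_simp
      ring
    rw [e2]
    rw [e1] at h2
    have h3 : Real.exp (-(2 * t / m)) ≤ 1 := by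
      rw [Real.exp_le_one_iff]
      linarith
    have h4 : Real.exp (-(2 * t / m)) *
        (Real.exp (-t) * Wst m η (2 * t / m)) ^ (2 * (b - 1)) ≤
        1 * Real.exp (-((b - 1) * η ^ 2 / (1 + η))) :=
      mul_le_mul h3 h2 (pow_nonneg hW0 _) zero_le_one
    linarith

theorem slope_ge (b m : ℕ) (hb : 1 ≤ b) (η : ℝ) (hη0 : 0 ≤ η) (hη1 : η ≤ 1) {n D : ℕ}
    (F : Fin D → Hyp (2 * b - 1)) (hF : IsCover n (b * m + 1) F) :
    ((m : ℝ) + 1) * n ≤
      (1 + m * η + (m + 1) * Real.exp (-((b - 1) * η ^ 2 / (1 + η)))) * D := by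
  classical
  have h := LB_final b m hb η hη0 hη1 (Fin D) univ (fun i => (F i).nrm) (fun i => (F i).off) n
    (fun i _ => (F i).ne) (fun x hx => by
      refine (hF x hx).trans (card_le_card ?_)
      intro i hi
      simpa [Hyp.On] using hi)
  rw [card_univ, Fintype.card_fin] at h
  have hm1 : (0 : ℝ) < (m : ℝ) + 1 := by positivity
  have h1 := mul_le_mul_of_nonneg_left h hm1.le
  refine h1.trans (le_of_eq ?_)
  field_simp

end Pool.Agent.H69.TG
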