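import Pool.Agent.H69.TG.Lower

/-!
A facet-parallel cover with exactly `(m+1) n` members.
-/

set_option autoImplicit false

open Finset

namespace Pool.Agent.H69.TG

/-- The hyperplane on which the barycentric coordinate `i` is equal to `c`. -/
def facet {d : ℕ} (hd : 0 < d) (n : ℕ) (i : Fin (d + 1)) (c : ℕ) : Hyp d :=
  Fin.cases (motive := fun _ => Hyp d)
    ⟨fun _ => 1, (n : ℝ) - 1 - c, fun h => one_ne_zero (α := ℝ) (congrFun h ⟨0, hd⟩)⟩
    (fun j => ⟨Pi.single j 1, c, fun h => one_ne_zero (α := ℝ) (by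
      have := congrFun h j
      simpa using this)⟩) i

theorem facet_on {d n : ℕ} (hd : 0 < d) (i : Fin (d + 1)) (c : ℕ) (x : Fin d → ℕ)
    (hx : ∑ j, x j < n) : (facet hd n i c).On x ↔ bc n x i = c := by
  refine Fin.cases ?_ (fun j => ?_) i
  · have h1 : ((n - 1 - ∑ j, x j : ℕ) : ℝ) = (n : ℝ) - 1 - ∑ j, (x j : ℝ) := by
      have h2 : 1 ≤ n := by omega
      have h3 : ∑ j, x j ≤ n - 1 := by omega
      rw [Nat.cast_sub h3, Nat.cast_sub h2]
      push_cast
      ring
    have h4 : bc n x 0 = n - 1 - ∑ j, x j := by simp [bc]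
    rw [h4]
    have h5 : (facet hd n 0 c).On x ↔ ∑ j, (x j : ℝ) = (n : ℝ) - 1 - c := by
      simp [facet, Hyp.On]
    rw [h5]
    constructor
    · intro h
      have h6 : ((n - 1 - ∑ j, x j : ℕ) : ℝ) = (c : ℝ) := by
        rw [h1, h]
        ring
      exact_mod_cast h6
    · intro h
      have h6 : ((n - 1 - ∑ j, x j : ℕ) : ℝ) = (c : ℝ) := by rw [h]
      rw [h1] at h6
      linarith
  · have h4 : bc n x j.succ = x j := by simp [bc]
    rw [h4]
    have h5 : (facet hd n j.succ c).On x ↔ (x j : ℝ) = (c : ℝ) := by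
      simp [facet, Hyp.On, Pi.single_apply]
    rw [h5]
    norm_cast

theorem facet_par {d n : ℕ} (hd : 0 < d) (i : Fin (d + 1)) (c : ℕ) :
    (facet hd n i c).FacetPar := by
  refine Fin.cases ?_ (fun j => ?_) i
  · refine ⟨0, 1, ?_, fun l hl => ?_⟩
    · simp [Hyp.bary, facet]
    · obtain ⟨l', rfl⟩ := Fin.exists_succ_eq.2 hl
      simp [Hyp.bary, facet]
  · refine ⟨j.succ, 0, ?_, fun l hl => ?_⟩
    · simp [Hyp.bary, facet]
    · refine Fin.cases ?_ (fun l' => ?_) l (motive := fun l => l ≠ j.succ → (facet hd n j.succ c).bary l = 0) hl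
      · intro _
        simp [Hyp.bary]
      · intro h
        have : l' ≠ j := fun h' => h (by rw [h'])
        simp [Hyp.bary, facet, Pi.single_apply, this]

theorem sum_fin_eq (K X : ℕ) : ∑ c : Fin K, (if X = (c : ℕ) then 1 else 0) =
    (if X < K then 1 else 0) := by
  rw [← Finset.sum_range (fun c => if X = c then 1 else 0), Finset.sum_ite_eq]
  simp

theorem sum_layers (m q X : ℕ) (hq : 0 < q) :
    ∑ j : Fin m, (if X < ((j : ℕ) + 1) * q then 1 else 0) + min m (X / q) = m := by
  rw [← Finset.sum_range (fun j => if X < (j + 1) * q then 1 else 0)]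
  induction m with
  | zero => simp
  | succ m ih =>
    rw [sum_range_succ]
    by_cases h : X < (m + 1) * q
    · rw [if_pos h]
      have h1 : X / q < m + 1 := (Nat.div_lt_iff_lt_mul hq).2 h
      have h2 : min m (X / q) = X / q := min_eq_right (by omega)
      have h3 : min (m + 1) (X / q) = X / q := min_eq_right (by omega)
      rw [h2] at ih
      rw [h3]
      omega
    · rw [if_neg h]
      have h1 : m + 1 ≤ X / q := (Nat.le_div_iff_mul_le hq).2 (not_lt.1 h)
      have h2 : min m (X / q) = m := min_eq_left (by omega)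
      have h3 : min (m + 1) (X / q) = m + 1 := min_eq_left h1
      rw [h2] at ih
      rw [h3]
      omega

/-- The index type of the cover. -/
abbrev Ix (d m q r : ℕ) : Type :=
  (Σ p : Fin (d + 1) × Fin m, Fin (((p.2 : ℕ) + 1) * q)) ⊕ (Fin (m + 1) × Fin r)

/-- The members of the cover. -/
def mem {d : ℕ} (hd : 0 < d) (n m q r : ℕ) : Ix d m q r → Hyp d
  | Sum.inl ⟨p, c⟩ => facet hd n p.1 c
  | Sum.inr (j, e) => facet hd n 0 (q * j + e)

theorem card_Ix (b d m q r : ℕ) (hd : d + 1 = 2 * b) :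
    Fintype.card (Ix d m q r) = (m + 1) * (b * m * q + r) := by
  have h1 : ∀ m : ℕ, 2 * ∑ j : Fin m, ((j : ℕ) + 1) = m * (m + 1) := by
    intro m
    rw [← Finset.sum_range (fun j => j + 1)]
    induction m with
    | zero => simp
    | succ m ih => rw [sum_range_succ, mul_add, ih]; ring
  have h2 : Fintype.card (Ix d m q r) = (d + 1) * (∑ j : Fin m, ((j : ℕ) + 1)) * q + (m + 1) * r := by
    simp only [Ix, Fintype.card_sum, Fintype.card_sigma, Fintype.card_fin, Fintype.card_prod]
    rw [Fintype.sum_prod_type]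
    simp only [sum_const, card_univ, Fintype.card_fin, smul_eq_mul]
    rw [← Finset.sum_mul]
    ring
  rw [h2, hd]
  have h3 := h1 m
  calc 2 * b * (∑ j : Fin m, ((j : ℕ) + 1)) * q + (m + 1) * r
      = b * (2 * ∑ j : Fin m, ((j : ℕ) + 1)) * q + (m + 1) * r := by ring
    _ = (m + 1) * (b * m * q + r) := by rw [h3]; ring

open Classical in
theorem count_on {d n m q r : ℕ} (hd : 0 < d) (x : Fin d → ℕ) (hx : ∑ j, x j < n) :
    (univ.filter (fun k => (mem hd n m q r k).On x)).card =
      ∑ i : Fin (d + 1), ∑ j : Fin m, (if bc n x i < ((j : ℕ) + 1) * q then 1 else 0) +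
      ∑ j : Fin (m + 1), ∑ e : Fin r, (if bc n x 0 = q * j + e then 1 else 0) := by
  rw [card_filter, Fintype.sum_sum_type, Fintype.sum_sigma, Fintype.sum_prod_type,
    Fintype.sum_prod_type]
  congr 1
  · refine sum_congr rfl fun i _ => sum_congr rfl fun j _ => ?_
    rw [← sum_fin_eq]
    refine sum_congr rfl fun c _ => ?_
    simp only [mem, facet_on hd _ _ x hx]
  · refine sum_congr rfl fun j _ => sum_congr rfl fun e _ => ?_
    simp only [mem, facet_on hd _ _ x hx]

open Classical in
theorem count_ge {b d m n : ℕ} (hd2 : d + 1 = 2 * b) (hd : 0 < d) (hb : 1 ≤ b)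
    (hn : (b * m) ^ 2 ≤ n) (x : Fin d → ℕ) (hx : ∑ j, x j < n) :
    b * m + 1 ≤ (univ.filter (fun k => (mem hd n m (n / (b * m)) (n % (b * m)) k).On x)).card := by
  rw [count_on hd x hx]
  have hsum := sum_bc x hx
  rcases Nat.eq_zero_or_pos m with hm | hm
  · subst hm
    simp only [Nat.mul_zero, Nat.mod_zero, Nat.div_zero, zero_add]
    have h0 : bc n x 0 < n := by
      have : bc n x 0 ≤ ∑ l, bc n x l := single_le_sum (fun _ _ => Nat.zero_le _) (mem_univ _)
      omega
    have h2 : bc n x 0 < n % 0 := by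
      rw [Nat.mod_zero]
      exact h0
    have h3 : (1 : ℕ) ≤ ∑ e : Fin (n % 0), (if bc n x 0 = (e : ℕ) then 1 else 0) := by
      rw [sum_fin_eq, if_pos h2]
    simpa using h3
  · have hbm : 0 < b * m := Nat.mul_pos (by omega) hm
    set q := n / (b * m) with hq
    set r := n % (b * m) with hr
    have hnq : n = b * m * q + r := (Nat.div_add_mod n (b * m)).symm
    have hrlt : r < b * m := Nat.mod_lt _ hbm
    have hqge : b * m ≤ q := (Nat.le_div_iff_mul_le hbm).2 (by nlinarith)
    have hq0 : 0 < q := by omega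
    have hlay : ∑ i : Fin (d + 1), ∑ j : Fin m,
        (if bc n x i < ((j : ℕ) + 1) * q then 1 else 0) +
        ∑ i : Fin (d + 1), min m (bc n x i / q) = 2 * (b * m) := by
      rw [← sum_add_distrib]
      rw [sum_congr rfl (fun i _ => sum_layers m q (bc n x i) hq0)]
      rw [sum_const, card_univ, Fintype.card_fin, smul_eq_mul, hd2]
      ring
    have hle1 : ∑ i : Fin (d + 1), min m (bc n x i / q) ≤ ∑ i : Fin (d + 1), bc n x i / q :=
      sum_le_sum fun i _ => min_le_right _ _
    have hdecomp : q * ∑ i : Fin (d + 1), bc n x i / q + ∑ i : Fin (d + 1), bc n x i % q =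
        n - 1 := by
      rw [← hsum, mul_sum, ← sum_add_distrib]
      exact sum_congr rfl fun i _ => Nat.div_add_mod _ _
    have hle2 : ∑ i : Fin (d + 1), bc n x i / q ≤ b * m := by
      by_contra hcon
      have h1 : b * m + 1 ≤ ∑ i : Fin (d + 1), bc n x i / q := by omega
      have h2 : q * (b * m + 1) ≤ q * ∑ i : Fin (d + 1), bc n x i / q :=
        Nat.mul_le_mul_left _ h1
      have h3 : q * (b * m + 1) = b * m * q + q := by ring
      omega
    by_cases hcase : ∑ i : Fin (d + 1), min m (bc n x i / q) ≤ b * m - 1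
    · omega
    · have heq : ∑ i : Fin (d + 1), bc n x i / q = b * m := by omega
      have heq2 : ∑ i : Fin (d + 1), min m (bc n x i / q) = ∑ i : Fin (d + 1), bc n x i / q := by
        omega
      have h0 : bc n x 0 / q ≤ m := by
        have h1 := (sum_eq_sum_iff_of_le (fun i _ => min_le_right m (bc n x i / q))).1 heq2 0
          (mem_univ _)
        rw [← h1]
        exact min_le_left _ _
      have hmod : bc n x 0 % q < r := by
        have h1 : bc n x 0 % q ≤ ∑ i : Fin (d + 1), bc n x i % q :=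
          single_le_sum (f := fun i => bc n x i % q) (fun _ _ => Nat.zero_le _) (mem_univ _)
        rw [heq] at hdecomp
        have h3 : q * (b * m) = b * m * q := by ring
        have h4 : 1 ≤ n := by omega
        omega
      have hextra : 1 ≤ ∑ j : Fin (m + 1), ∑ e : Fin r,
          (if bc n x 0 = q * (j : ℕ) + (e : ℕ) then 1 else 0) := by
        have h1 : (if bc n x 0 = q * ((⟨bc n x 0 / q, by omega⟩ : Fin (m + 1)) : ℕ) +
            ((⟨bc n x 0 % q, hmod⟩ : Fin r) : ℕ) then 1 else 0) = 1 := by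
          rw [if_pos (Nat.div_add_mod _ _).symm]
        calc 1 = (if bc n x 0 = q * ((⟨bc n x 0 / q, by omega⟩ : Fin (m + 1)) : ℕ) +
            ((⟨bc n x 0 % q, hmod⟩ : Fin r) : ℕ) then 1 else 0) := h1.symm
          _ ≤ ∑ e : Fin r, (if bc n x 0 = q * ((⟨bc n x 0 / q, by omega⟩ : Fin (m + 1)) : ℕ) +
              (e : ℕ) then 1 else 0) :=
            single_le_sum (f := fun e : Fin r => if bc n x 0 =
              q * ((⟨bc n x 0 / q, by omega⟩ : Fin (m + 1)) : ℕ) + (e : ℕ) then 1 else 0)
              (fun _ _ => Nat.zero_le _) (mem_univ _)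
          _ ≤ _ := single_le_sum (f := fun j : Fin (m + 1) => ∑ e : Fin r,
              (if bc n x 0 = q * (j : ℕ) + (e : ℕ) then 1 else 0))
              (fun _ _ => Nat.zero_le _) (mem_univ _)
      omega

theorem upper {b d m n : ℕ} (hd2 : d + 1 = 2 * b) (hb : 1 ≤ b) (hn : (b * m) ^ 2 ≤ n) :
    ∃ F : Fin ((m + 1) * n) → Hyp d, IsCover n (b * m + 1) F ∧ ∀ i, (F i).FacetPar := by
  classical
  have hd : 0 < d := by omega
  have hcard : Fintype.card (Ix d m (n / (b * m)) (n % (b * m))) = (m + 1) * n := by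
    rw [card_Ix b d m _ _ hd2, Nat.div_add_mod]
  let e : Ix d m (n / (b * m)) (n % (b * m)) ≃ Fin ((m + 1) * n) :=
    Fintype.equivFinOfCardEq hcard
  refine ⟨fun i => mem hd n m (n / (b * m)) (n % (b * m)) (e.symm i), fun x hx => ?_, fun i => ?_⟩
  · refine le_trans (count_ge hd2 hd hb hn x hx) (le_of_eq ?_)
    rw [card_filter, card_filter]
    exact (Equiv.sum_comp e.symm (fun k =>
      if (mem hd n m (n / (b * m)) (n % (b * m)) k).On x then 1 else 0)).symm
  · show (mem hd n m (n / (b * m)) (n % (b * m)) (e.symm i)).FacetPar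
    rcases e.symm i with ⟨p, c⟩ | ⟨j, c⟩
    · exact facet_par hd _ _
    · exact facet_par hd _ _

end Pool.Agent.H69.TG
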